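import Mathlib
import Pool.Agent.Lib.Pf31f09.SOMain

/-!
Kac's walk on the special orthogonal group mixes in at most `20 n² (log n + log (1/ε))` steps.

The topological group structure and the compactness of `SO(n)` (both propositions) and the Borel
sigma-algebra on it are the instances `Pf31f09.SO.instTopGroupSO`, `Pf31f09.SO.instCompactSO`,
`Pf31f09.SO.instMeasSO`, `Pf31f09.SO.instBorelSO`.
-/

open MeasureTheory Matrix

namespace Pool.Agent.Results.MP_f31f09_pr.GroupUpperBound

noncomputable section

/-- The special orthogonal group, with the topology induced from the matrices and its Borel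
sigma-algebra. -/
abbrev SO (n : ℕ) := Matrix.specialOrthogonalGroup (Fin n) ℝ

/-- The pairs `i < j`. -/
abbrev Pairs (n : ℕ) := {p : Fin n × Fin n // p.1 < p.2}

/-- The matrix of the rotation by the angle `θ` in the `(i,j)` coordinate plane. -/
def rotMatrix {n : ℕ} (i j : Fin n) (θ : ℝ) : Matrix (Fin n) (Fin n) ℝ := fun k l =>
  if k = i then (if l = i then Real.cos θ else if l = j then -Real.sin θ else 0)
  else if k = j then (if l = i then Real.sin θ else if l = j then Real.cos θ else 0)
  else if k = l then 1 else 0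

theorem rotMatrix_eq {n : ℕ} (e : Pairs n) (θ : ℝ) :
    rotMatrix e.1.1 e.1.2 θ = Pf31f09.SO.R e θ := by
  have h := Pf31f09.SO.Pr.ne e
  have h' := h.symm
  ext k l
  simp only [Pf31f09.SO.R, Pf31f09.SO.G_sq, Matrix.add_apply, Matrix.smul_apply,
    Pf31f09.SO.G_apply, Matrix.sub_apply, Matrix.neg_apply, Matrix.single_apply, smul_eq_mul,
    Matrix.one_apply, rotMatrix]
  by_cases h1 : k = e.1.1
  · by_cases h2 : l = e.1.1
    · simp [h1, h2, h, h']
    · by_cases h3 : l = e.1.2
      · simp [h1, h3, h, h']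
      · have h4 : ¬ (e.1.1 = l) := fun h => h2 h.symm
        have h5 : ¬ (e.1.2 = l) := fun h => h3 h.symm
        simp [h1, h2, h3, h, h', h4, h5]
  · by_cases h2 : k = e.1.2
    · by_cases h3 : l = e.1.1
      · simp [h2, h3, h, h']
      · by_cases h4 : l = e.1.2
        · simp [h2, h4, h, h']
        · have h5 : ¬ (e.1.1 = l) := fun h => h3 h.symm
          have h6 : ¬ (e.1.2 = l) := fun h => h4 h.symm
          simp [h2, h3, h4, h, h', h5, h6]
    · have h3 : ¬ (e.1.1 = k) := fun h => h1 h.symm
      have h4 : ¬ (e.1.2 = k) := fun h => h2 h.symm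
      by_cases h5 : k = l
      · simp [h1, h2, h5, h3, h4]
        subst h5
        simp [h1, h2, h3, h4]
      · simp [h1, h2, h5, h3, h4]

theorem rotMatrix_mem {n : ℕ} (e : Pairs n) (θ : ℝ) :
    rotMatrix e.1.1 e.1.2 θ ∈ Matrix.specialOrthogonalGroup (Fin n) ℝ := by
  rw [rotMatrix_eq]
  exact (Pf31f09.SO.rotSO e θ).2

/-- The rotation by the angle `θ` in the coordinate plane of the pair `e`, as an element of
`SO(n)`. -/
def rot {n : ℕ} (e : Pairs n) (θ : ℝ) : SO n := ⟨rotMatrix e.1.1 e.1.2 θ, rotMatrix_mem e θ⟩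

/-- The uniform probability measure on the angles `[0, 2π)`. -/
def unifAngle : Measure ℝ :=
  (ENNReal.ofReal (2 * Real.pi))⁻¹ • (volume : Measure ℝ).restrict (Set.Ico 0 (2 * Real.pi))

/-- The kernel of Kac's walk on `SO(n)`: from `x`, a uniform pair `i < j` and a uniform angle are
chosen and `x` is multiplied on the left by the rotation. -/
def step {n : ℕ} (x : SO n) : Measure (SO n) :=
  (Fintype.card (Pairs n) : ENNReal)⁻¹ • ∑ e : Pairs n, unifAngle.map fun θ => rot e θ * x

/-- The law of Kac's walk on `SO(n)` at time `t` started at `x`. -/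
def law {n : ℕ} (x : SO n) : ℕ → Measure (SO n)
  | 0 => Measure.dirac x
  | t + 1 => (law x t).bind step

/-- The Haar probability measure on `SO(n)`: the left invariant Haar measure that gives the whole
compact group mass one. -/
def haar (n : ℕ) : Measure (SO n) := Measure.haarMeasure ⊤

/-- Total variation distance. -/
def tv {n : ℕ} (μ ν : Measure (SO n)) : ℝ :=
  sSup {r : ℝ | ∃ A : Set (SO n), MeasurableSet A ∧ r = |μ.real A - ν.real A|}

/-- The mixing time at level `ε`: the least `t` at which the total variation distance to Haar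
measure is at most `ε` for every starting point. -/
def tmix (n : ℕ) (ε : ℝ) : ℕ := sInf {t : ℕ | ∀ x : SO n, tv (law x t) (haar n) ≤ ε}

theorem rot_eq {n : ℕ} (e : Pairs n) (θ : ℝ) : rot e θ = Pf31f09.SO.rotSO e θ :=
  Subtype.ext (rotMatrix_eq e θ)

theorem step_eq {n : ℕ} (x : SO n) : step x = Pf31f09.SO.step x := by
  unfold step Pf31f09.SO.step
  simp only [rot_eq]
  rfl

theorem law_eq {n : ℕ} (x : SO n) (t : ℕ) : law x t = Pf31f09.SO.law x t := by
  induction t with
  | zero => rfl
  | succ t ih =>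
    change (law x t).bind step = (Pf31f09.SO.law x t).bind Pf31f09.SO.step
    rw [ih]
    congr 1
    funext y
    exact step_eq y

/-- Kac's walk on `SO(n)`, for every `n ≥ 2`: for every `0 < ε < 1`, from the time
`20 n² (log n + log (1/ε))` on, the total variation distance to Haar measure is at most `ε`
whatever the starting point; in particular `t_mix(ε) ≤ ⌈20 n² (log n + log (1/ε))⌉`. -/
theorem result (n : ℕ) (hn : 2 ≤ n) (ε : ℝ) (h0 : 0 < ε) (h1 : ε < 1) :
    (∀ t : ℕ, 20 * (n : ℝ) ^ 2 * (Real.log n + Real.log (1 / ε)) ≤ t →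
      ∀ x : SO n, tv (law x t) (haar n) ≤ ε) ∧
    tmix n ε ≤ ⌈20 * (n : ℝ) ^ 2 * (Real.log n + Real.log (1 / ε))⌉₊ := by
  have h : ∀ t : ℕ, 20 * (n : ℝ) ^ 2 * (Real.log n + Real.log (1 / ε)) ≤ t →
      ∀ x : SO n, tv (law x t) (haar n) ≤ ε := by
    intro t ht x
    rw [law_eq]
    exact Pf31f09.SO.main hn h0 h1 ht x
  exact ⟨h, Nat.sInf_le (h _ (Nat.le_ceil _))⟩

end

end Pool.Agent.Results.MP_f31f09_pr.GroupUpperBound
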