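import Mathlib
import Pool.Agent.Lib.Pf31f09.UMomHyp

/-!
Kac's walk on the sphere exhibits cutoff, at time `c* n log n`.
-/

open MeasureTheory Filter Topology

namespace Pool.Agent.Results.MP_f31f09_pr.SphereCutoff

noncomputable section

/-- The rotation by the angle `θ` in the `(i,j)` coordinate plane. -/
def rot {n : ℕ} (i j : Fin n) (θ : ℝ) (v : EuclideanSpace ℝ (Fin n)) :
    EuclideanSpace ℝ (Fin n) :=
  WithLp.toLp 2 fun k => if k = i then v i * Real.cos θ - v j * Real.sin θ
    else if k = j then v i * Real.sin θ + v j * Real.cos θ else v k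

/-- The pairs `i < j`. -/
def pairs (n : ℕ) : Finset (Fin n × Fin n) := Finset.univ.filter fun p => p.1 < p.2

/-- The uniform probability measure on the angles `[0, 2π)`. -/
def unifAngle : Measure ℝ :=
  (ENNReal.ofReal (2 * Real.pi))⁻¹ • (volume : Measure ℝ).restrict (Set.Ico 0 (2 * Real.pi))

/-- The kernel of Kac's walk: from `v`, a uniform pair `i < j` and a uniform angle are chosen
and `v` is rotated. -/
def step {n : ℕ} (v : EuclideanSpace ℝ (Fin n)) : Measure (EuclideanSpace ℝ (Fin n)) :=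
  ((pairs n).card : ENNReal)⁻¹ • ∑ p ∈ pairs n, unifAngle.map fun θ => rot p.1 p.2 θ v

/-- The law of Kac's walk at time `t` started at `x`. -/
def law {n : ℕ} (x : EuclideanSpace ℝ (Fin n)) : ℕ → Measure (EuclideanSpace ℝ (Fin n))
  | 0 => Measure.dirac x
  | t + 1 => (law x t).bind step

/-- The uniform probability measure on the unit sphere, as a measure on the ambient space. -/
def unif (n : ℕ) : Measure (EuclideanSpace ℝ (Fin n)) :=
  ((volume : Measure (EuclideanSpace ℝ (Fin n))).toSphere Set.univ)⁻¹ •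
    ((volume : Measure (EuclideanSpace ℝ (Fin n))).toSphere.map Subtype.val)

/-- Total variation distance. -/
def tv {n : ℕ} (μ ν : Measure (EuclideanSpace ℝ (Fin n))) : ℝ :=
  sSup {r : ℝ | ∃ A : Set (EuclideanSpace ℝ (Fin n)), MeasurableSet A ∧ r = |μ.real A - ν.real A|}

/-- The mixing time at level `ε`: the least `t` at which the total variation distance to the
uniform measure is at most `ε` for every starting point on the unit sphere. -/
def tmix (n : ℕ) (ε : ℝ) : ℕ :=
  sInf {t : ℕ | ∀ x : EuclideanSpace ℝ (Fin n), ‖x‖ = 1 → tv (law x t) (unif n) ≤ ε}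

/-- The moment `m_q = E (cos² θ)^q`, `θ` uniform on `[0, 2π]`. -/
def mom (q : ℝ) : ℝ := (2 * Real.pi)⁻¹ * ∫ θ in (0 : ℝ)..(2 * Real.pi), (Real.cos θ ^ 2) ^ q

/-- The constant `c* = inf_{q > 1} q / (2 - 4 m_q)`. -/
def cstar : ℝ := ⨅ q : Set.Ioi (1 : ℝ), (q : ℝ) / (2 - 4 * mom q)

theorem law_eq {n : ℕ} (x : EuclideanSpace ℝ (Fin n)) (t : ℕ) : law x t = Pf31f09.law x t := by
  induction t with
  | zero => rfl
  | succ t ih =>
    change (law x t).bind step = (Pf31f09.law x t).bind Pf31f09.step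
    rw [ih]
    rfl

theorem tmix_eq (n : ℕ) (ε : ℝ) : tmix n ε = Pf31f09.tmix n ε := by
  unfold tmix Pf31f09.tmix
  simp only [law_eq]
  rfl

/-- Kac's walk on the sphere: `t_mix(ε) / (n log n)` converges to the constant `c*`, which lies
in `[3.8, 3.9)`, for every `0 < ε < 1`; in particular the walk exhibits cutoff. -/
theorem result : (3.8 ≤ cstar ∧ cstar < 3.9) ∧
    (∀ ε : ℝ, 0 < ε → ε < 1 →
      Tendsto (fun n : ℕ => (tmix n ε : ℝ) / (n * Real.log n)) atTop (𝓝 cstar)) ∧
    (∀ ε : ℝ, 0 < ε → ε < 1 →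
      Tendsto (fun n : ℕ => (tmix n ε : ℝ) / tmix n (1 / 4)) atTop (𝓝 1)) := by
  refine ⟨⟨Pf31f09.cstar_ge, Pf31f09.cstar_lt⟩, fun ε h0 h1 => ?_, fun ε h0 h1 => ?_⟩
  · simp only [tmix_eq]
    exact Pf31f09.cutoff_main h0 h1
  · simp only [tmix_eq]
    exact Pf31f09.cutoff_ratio h0 h1

end

end Pool.Agent.Results.MP_f31f09_pr.SphereCutoff
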